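import Pool.Agent.W969.MC.Avg5
import Pool.Agent.Y630.TR.Lsub
import Pool.Agent.Y630.TF.Subst

/-! Clauses with at most `k` literals hidden among clauses with `k` literals: every variable gets
`m` copies, short clauses are filled up with false variables. -/

set_option autoImplicit false

namespace Pool.Agent.Z45.SF

open Finset Pool.Agent.W969.MC Pool.Agent.Y630.TF

/-- clauses with exactly `k` literals -/
abbrev Cl (N k : ℕ) : Type := {c : Finset (Fin N × Bool) // c.card = k}

/-- satisfiability -/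
def St {N k : ℕ} (x : Cl N k → Bool) : Prop :=
  ∃ a : Fin N → Bool, ∀ c : Cl N k, x c = true → ∃ l ∈ c.1, a l.1 = l.2

section

variable {n k m N : ℕ}

/-- the filled up clause -/
def pad (c : Cla n k) : Finset ((Fin n ⊕ Fin k) × Bool) :=
  c.1.image (fun l => (Sum.inl l.1, l.2)) ∪
  (univ.filter fun j : Fin k => (j : ℕ) < k - c.1.card).image (fun j => (Sum.inr j, true))

lemma inj1 : Function.Injective
    (fun l : Fin n × Bool => ((Sum.inl l.1, l.2) : (Fin n ⊕ Fin k) × Bool)) := by
  intro l l' h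
  simp only [Prod.mk.injEq, Sum.inl.injEq] at h
  exact Prod.ext h.1 h.2

lemma inj2 : Function.Injective (fun j : Fin k => ((Sum.inr j, true) : (Fin n ⊕ Fin k) × Bool)) := by
  intro j j' h
  simpa using h

lemma mem_pad_inl {c : Cla n k} {v : Fin n} {s : Bool} :
    ((Sum.inl v, s) : (Fin n ⊕ Fin k) × Bool) ∈ pad c ↔ (v, s) ∈ c.1 := by
  unfold pad
  simp

lemma mem_pad_inr {c : Cla n k} {j : Fin k} {s : Bool}
    (h : ((Sum.inr j, s) : (Fin n ⊕ Fin k) × Bool) ∈ pad c) : s = true := by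
  unfold pad at h
  rw [mem_union, mem_image, mem_image] at h
  rcases h with ⟨l, -, h⟩ | ⟨l, -, h⟩
  · exact absurd (congrArg Prod.fst h) (by simp)
  · exact (congrArg Prod.snd h).symm

lemma card_pad (c : Cla n k) : (pad c).card = k := by
  unfold pad
  rw [card_union_of_disjoint, card_image_of_injective _ inj1, card_image_of_injective _ inj2]
  · have h1 : (univ.filter fun j : Fin k => (j : ℕ) < k - c.1.card).card = k - c.1.card := by
      rw [Fin.card_filter_val_lt]
      omega
    rw [h1]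
    have := c.2
    omega
  · rw [Finset.disjoint_left]
    intro p h1 h2
    rw [mem_image] at h1 h2
    obtain ⟨l, -, rfl⟩ := h1
    obtain ⟨j, -, h3⟩ := h2
    exact absurd (congrArg Prod.fst h3) (by simp)

/-- numbering of the literals -/
noncomputable def num (c : Cla n k) : {l // l ∈ pad c} ≃ Fin k :=
  Finset.equivFinOfCardEq (card_pad c)

/-- the variables -/
abbrev Vr (n k m : ℕ) : Type := ((Fin n ⊕ Fin k) × ZMod m) ⊕ Fin k

/-- the place of the clause `c` for the copies `g` -/
noncomputable def plc (ι : Vr n k m ↪ Fin N) (c : Cla n k) (g : Fin k → ZMod m) :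
    Finset (Fin N × Bool) :=
  univ.image (fun l : {l // l ∈ pad c} => (ι (Sum.inl (l.1.1, g (num c l))), l.1.2))

lemma inj3 (ι : Vr n k m ↪ Fin N) (c : Cla n k) (g : Fin k → ZMod m) : Function.Injective
    (fun l : {l // l ∈ pad c} => (ι (Sum.inl (l.1.1, g (num c l))), l.1.2)) := by
  intro l l' h
  simp only [Prod.mk.injEq, EmbeddingLike.apply_eq_iff_eq, Sum.inl.injEq] at h
  exact Subtype.ext (Prod.ext h.1.1 h.2)

lemma mem_plc {ι : Vr n k m ↪ Fin N} {c : Cla n k} {g : Fin k → ZMod m} {p : Fin N × Bool} :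
    p ∈ plc ι c g ↔ ∃ l : {l // l ∈ pad c}, (ι (Sum.inl (l.1.1, g (num c l))), l.1.2) = p := by
  unfold plc
  simp

lemma card_plc (ι : Vr n k m ↪ Fin N) (c : Cla n k) (g : Fin k → ZMod m) :
    (plc ι c g).card = k := by
  unfold plc
  rw [card_image_of_injective _ (inj3 ι c g), card_univ, Fintype.card_coe, card_pad]

lemma plc_sub {ι : Vr n k m ↪ Fin N} {c c' : Cla n k} {g g' : Fin k → ZMod m}
    (h : plc ι c g = plc ι c' g') (l : {l // l ∈ pad c}) :
    ∃ h' : l.1 ∈ pad c', g' (num c' ⟨l.1, h'⟩) = g (num c l) := by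
  have h1 : (ι (Sum.inl (l.1.1, g (num c l))), l.1.2) ∈ plc ι c g := mem_plc.mpr ⟨l, rfl⟩
  rw [h, mem_plc] at h1
  obtain ⟨l', h2⟩ := h1
  simp only [Prod.mk.injEq, EmbeddingLike.apply_eq_iff_eq, Sum.inl.injEq] at h2
  have h3 : l'.1 = l.1 := Prod.ext h2.1.1 h2.2
  have h4 : l.1 ∈ pad c' := h3 ▸ l'.2
  refine ⟨h4, ?_⟩
  have h5 : (⟨l.1, h4⟩ : {l // l ∈ pad c'}) = l' := Subtype.ext h3.symm
  rw [h5]
  exact h2.1.2

lemma pad_inj {c c' : Cla n k} (h : ∀ l ∈ pad c, l ∈ pad c') (h' : ∀ l ∈ pad c', l ∈ pad c) :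
    c = c' := by
  apply Subtype.ext
  ext ⟨v, s⟩
  rw [← mem_pad_inl (k := k), ← mem_pad_inl (k := k)]
  exact ⟨h _, h' _⟩

/-- the places -/
noncomputable def slot (ι : Vr n k m ↪ Fin N) : Cla n k × (Fin k → ZMod m) ↪ Cl N k :=
  ⟨fun z => ⟨plc ι z.1 z.2, card_plc ι z.1 z.2⟩, by
    rintro ⟨c, g⟩ ⟨c', g'⟩ h
    have h1 : plc ι c g = plc ι c' g' := congrArg Subtype.val h
    have h2 : c = c' := pad_inj (fun l hl => (plc_sub h1 ⟨l, hl⟩).1)
      (fun l hl => (plc_sub h1.symm ⟨l, hl⟩).1)
    subst h2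
    have h3 : g = g' := by
      funext j
      obtain ⟨h4, h5⟩ := plc_sub h1 ((num c).symm j)
      have h6 : (⟨((num c).symm j).1, h4⟩ : {l // l ∈ pad c}) = (num c).symm j := rfl
      rw [h6, Equiv.apply_symm_apply] at h5
      exact h5.symm
    rw [h3]⟩

/-- assignments with equal copies -/
def Good (ι : Vr n k m ↪ Fin N) (a : Fin N → Bool) : Prop :=
  (∀ v i j, a (ι (Sum.inl (Sum.inl v, i))) = a (ι (Sum.inl (Sum.inl v, j)))) ∧
    ∀ j i, a (ι (Sum.inl (Sum.inr j, i))) = false

open Classical in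
/-- the clauses that are always present -/
noncomputable def bse (ι : Vr n k m ↪ Fin N) : Cl N k → Bool :=
  fun c => decide (∀ a, Good ι a → ∃ l ∈ c.1, a l.1 = l.2)

/-- a clause of auxiliary literals -/
def axl (ι : Vr n k m ↪ Fin N) (a : Fin N → Bool) (r : ℕ) : Finset (Fin N × Bool) :=
  (univ.filter fun j : Fin k => (j : ℕ) < r).image
    (fun j => (ι (Sum.inr j), !(a (ι (Sum.inr j)))))

lemma card_axl (ι : Vr n k m ↪ Fin N) (a : Fin N → Bool) {r : ℕ} (hr : r ≤ k) :
    (axl ι a r).card = r := by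
  unfold axl
  rw [card_image_of_injective, Fin.card_filter_val_lt]
  · omega
  · intro j j' h
    simp only [Prod.mk.injEq, EmbeddingLike.apply_eq_iff_eq, Sum.inr.injEq] at h
    exact h.1

lemma mem_axl {ι : Vr n k m ↪ Fin N} {a : Fin N → Bool} {r : ℕ} {p : Fin N × Bool}
    (h : p ∈ axl ι a r) : (∃ j, p.1 = ι (Sum.inr j)) ∧ a p.1 ≠ p.2 := by
  unfold axl at h
  rw [mem_image] at h
  obtain ⟨j, -, rfl⟩ := h
  refine ⟨⟨j, rfl⟩, ?_⟩
  simp

lemma good_of {ι : Vr n k m ↪ Fin N} (hk : 2 ≤ k) {a : Fin N → Bool}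
    (h : ∀ c : Cl N k, bse ι c = true → ∃ l ∈ c.1, a l.1 = l.2) : Good ι a := by
  classical
  -- implications between copies
  have h1 : ∀ v i j, a (ι (Sum.inl (Sum.inl v, i))) = true →
      a (ι (Sum.inl (Sum.inl v, j))) = true := by
    intro v i j hi
    by_contra hj
    set p : Fin N × Bool := (ι (Sum.inl (Sum.inl v, i)), false) with hp
    set q : Fin N × Bool := (ι (Sum.inl (Sum.inl v, j)), true) with hq
    have hpn : ∀ r, p ∉ axl ι a r := fun r hm => by
      obtain ⟨⟨t, ht⟩, -⟩ := mem_axl hm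
      exact absurd (ι.injective ht) (by simp)
    have hqn : ∀ r, q ∉ axl ι a r := fun r hm => by
      obtain ⟨⟨t, ht⟩, -⟩ := mem_axl hm
      exact absurd (ι.injective ht) (by simp)
    have hpq : p ≠ q := fun hh => by
      have := congrArg Prod.snd hh
      simp [hp, hq] at this
    have hc : (insert p (insert q (axl ι a (k - 2)))).card = k := by
      rw [card_insert_of_notMem, card_insert_of_notMem (hqn _), card_axl ι a (by omega)]
      · omega
      · rw [mem_insert]
        rintro (hh | hh)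
        · exact hpq hh
        · exact hpn _ hh
    obtain ⟨l, hl, hal⟩ := h ⟨_, hc⟩ (by
      unfold bse
      rw [decide_eq_true_iff]
      intro a' ha'
      rcases hb : a' (ι (Sum.inl (Sum.inl v, i))) with _ | _
      · exact ⟨p, mem_insert_self _ _, hb⟩
      · refine ⟨q, mem_insert_of_mem (mem_insert_self _ _), ?_⟩
        show a' (ι (Sum.inl (Sum.inl v, j))) = true
        rw [← ha'.1 v i j, hb])
    rw [mem_insert, mem_insert] at hl
    rcases hl with rfl | rfl | hl
    · rw [hp] at hal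
      simp only at hal
      rw [hi] at hal
      exact absurd hal (by simp)
    · exact hj hal
    · exact (mem_axl hl).2 hal
  refine ⟨fun v i j => ?_, fun j i => ?_⟩
  · rw [Bool.eq_iff_iff]
    exact ⟨h1 v i j, h1 v j i⟩
  · by_contra hj
    have hj' : a (ι (Sum.inl (Sum.inr j, i))) = true := by simpa using hj
    set p : Fin N × Bool := (ι (Sum.inl (Sum.inr j, i)), false) with hp
    have hpn : ∀ r, p ∉ axl ι a r := fun r hm => by
      obtain ⟨⟨t, ht⟩, -⟩ := mem_axl hm
      exact absurd (ι.injective ht) (by simp)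
    have hc : (insert p (axl ι a (k - 1))).card = k := by
      rw [card_insert_of_notMem (hpn _), card_axl ι a (by omega)]
      omega
    obtain ⟨l, hl, hal⟩ := h ⟨_, hc⟩ (by
      unfold bse
      rw [decide_eq_true_iff]
      intro a' ha'
      exact ⟨p, mem_insert_self _ _, ha'.2 j i⟩)
    rw [mem_insert] at hl
    rcases hl with rfl | hl
    · rw [hp] at hal
      simp only at hal
      rw [hj'] at hal
      exact absurd hal (by simp)
    · exact (mem_axl hl).2 hal

/-- the formula with hidden clauses is satisfiable iff the small formula is -/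
theorem host_sat (hk : 2 ≤ k) [NeZero m] (ι : Vr n k m ↪ Fin N)
    (τ : Cla n k → (Fin k → ZMod m)) (y : Cla n k → Bool) :
    St (host (slot ι) (bse ι) τ y) ↔ SatF n k y := by
  classical
  constructor
  · rintro ⟨a, ha⟩
    have hg : Good ι a := good_of hk (fun c hc => ha c (host_true.mpr (Or.inl hc)))
    refine ⟨fun v => a (ι (Sum.inl (Sum.inl v, 0))), fun c hc => ?_⟩
    obtain ⟨p, hp, hap⟩ := ha (slot ι (c, τ c)) (host_true.mpr (Or.inr ⟨c, hc, rfl⟩))
    have hp' : p ∈ plc ι c (τ c) := hp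
    rw [mem_plc] at hp'
    obtain ⟨⟨⟨w, s⟩, hl⟩, rfl⟩ := hp'
    rcases w with v | j
    · refine ⟨(v, s), mem_pad_inl.mp hl, ?_⟩
      simp only at hap ⊢
      rw [← hap]
      exact hg.1 _ _ _
    · have h1 := mem_pad_inr hl
      subst h1
      simp only at hap
      rw [hg.2] at hap
      exact absurd hap (by simp)
  · rintro ⟨a0, ha0⟩
    set f : Vr n k m → Bool := fun w => Sum.elim (fun p => Sum.elim a0 (fun _ => false) p.1)
      (fun _ => false) w with hf
    set a : Fin N → Bool := Function.extend ι f (fun _ => false) with ha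
    have hai : ∀ w, a (ι w) = f w := fun w => ι.injective.extend_apply _ _ _
    have hg : Good ι a := by
      refine ⟨fun v i j => ?_, fun j i => ?_⟩
      · rw [hai, hai]
        rfl
      · rw [hai]
        rfl
    refine ⟨a, fun c hc => ?_⟩
    rw [host_true] at hc
    rcases hc with hc | ⟨x, hx, rfl⟩
    · unfold bse at hc
      rw [decide_eq_true_iff] at hc
      exact hc a hg
    · obtain ⟨⟨v, s⟩, hl, hs⟩ := ha0 x hx
      have hl' : ((Sum.inl v, s) : (Fin n ⊕ Fin k) × Bool) ∈ pad x := mem_pad_inl.mpr hl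
      refine ⟨(ι (Sum.inl (Sum.inl v, τ x (num x ⟨_, hl'⟩))), s), ?_, ?_⟩
      · show _ ∈ plc ι x (τ x)
        rw [mem_plc]
        exact ⟨⟨_, hl'⟩, rfl⟩
      · simp only
        rw [hai]
        exact hs

end

end Pool.Agent.Z45.SF
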