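import Pool.Agent.Z45.SF.Small

/-! The lower bound for circuits with faults. -/

set_option autoImplicit false
set_option maxHeartbeats 1000000

namespace Pool.Agent.Z45.SF

open Finset Pool.Agent.W969.MC Pool.Agent.Y630.TF Pool.Agent.Y630.NW

/-- parameters -/
lemma params (k : ℕ) (hk : 3 ≤ k) (θ ε δ0 : ℝ) (hθ0 : 0 ≤ θ) (hθ : θ < k) (hε : 0 < ε)
    (hε1 : ε ≤ 1) (hδ0 : 0 < δ0) (n0 : ℕ) :
    ∃ δ : ℝ, 0 < δ ∧ ∃ N0 : ℕ, ∀ N : ℕ, N0 ≤ N → ∃ n m : ℕ, 0 < m ∧ n0 ≤ n ∧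
      (n + k) * m + k ≤ N ∧
      (∀ D : ℕ, 0 < D → (D : ℝ) ≤ (N : ℝ) ^ θ →
        D * (Real.log ((2 * n + 1) ^ k : ℕ) + (N : ℝ) ^ δ) ≤ ((m ^ k : ℕ) : ℝ)) ∧
      Real.exp (-(N : ℝ) ^ δ) ≤ (N : ℝ) ^ (-δ) / 2 ∧
      (n : ℝ) ^ (-δ0) ≤ (N : ℝ) ^ (-δ) / 2 ∧
      (N : ℝ) ^ ((k - θ) / (k + 1) - ε) ≤ (n : ℝ) ^ ((k : ℝ) / (k + 1) - ε / 4) := by
  have hkR : (3 : ℝ) ≤ k := by exact_mod_cast hk
  have hk0 : (0 : ℝ) < k := by linarith
  set η : ℝ := min (ε / 8) ((k - θ) / 4) with hη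
  have hη0 : 0 < η := lt_min (by linarith) (by linarith)
  have hη1 : η ≤ ε / 8 := min_le_left _ _
  have hη2 : η ≤ (k - θ) / 4 := min_le_right _ _
  set α : ℝ := (θ + η) / k with hα
  set β : ℝ := 1 - (θ + 2 * η) / k with hβ
  have hα0 : 0 < α := by positivity
  have hηk : η / k ≤ η / 1 := div_le_div_of_nonneg_left hη0.le (by norm_num) (by linarith)
  rw [div_one] at hηk
  have hαβ : α + β = 1 - η / k := by
    rw [hα, hβ]
    field_simp
    ring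
  have hβ0 : 0 < β := by
    rw [hβ, sub_pos, div_lt_one hk0]
    linarith
  have hβ1 : β ≤ 1 := by
    rw [hβ]
    have : 0 ≤ (θ + 2 * η) / k := by positivity
    linarith
  have hα1 : α ≤ 1 - η / k := by linarith
  have hβ2 : β ≤ 1 - η / k := by linarith
  set δ : ℝ := min (β * δ0 / 2) (η / 2) with hδ
  have hδpos : 0 < δ := lt_min (by positivity) (by positivity)
  have hδ1 : δ ≤ β * δ0 / 2 := min_le_left _ _
  have hδ2 : δ ≤ η / 2 := min_le_right _ _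
  -- the exponent
  set γ0 : ℝ := (k : ℝ) / (k + 1) - ε / 4 with hγ0
  set γ : ℝ := (k - θ) / (k + 1) - ε with hγ
  have hkk : (3 : ℝ) / 4 ≤ (k : ℝ) / (k + 1) := by
    rw [div_le_div_iff₀ (by norm_num) (by linarith)]
    linarith
  have hkk1 : (k : ℝ) / (k + 1) ≤ 1 := by
    rw [div_le_one (by linarith)]
    linarith
  have hγ0pos : 0 < γ0 := by rw [hγ0]; linarith
  have hγ0le : γ0 ≤ 1 := by rw [hγ0]; linarith
  have hgap : ε / 4 ≤ β * γ0 - γ := by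
    have h1 : (1 - θ / k) * ((k : ℝ) / (k + 1)) = (k - θ) / (k + 1) := by
      field_simp
    have h2 : β = (1 - θ / k) - 2 * η / k := by
      rw [hβ]
      ring
    have h3 : 0 ≤ 2 * η / k := by positivity
    have h4 : 2 * η / k ≤ ε / 4 := by
      have : 2 * η / k = 2 * (η / k) := by ring
      rw [this]
      linarith
    have h5 : 0 ≤ 1 - θ / k := by
      rw [sub_nonneg, div_le_one hk0]
      exact hθ.le
    have h6 : 1 - θ / k ≤ 1 := by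
      have : 0 ≤ θ / k := by positivity
      linarith
    have h7 : β * γ0 = (k - θ) / (k + 1) - (1 - θ / k) * (ε / 4) - 2 * η / k * γ0 := by
      rw [← h1, h2, hγ0]
      ring
    have h8 : (1 - θ / k) * (ε / 4) ≤ ε / 4 := by nlinarith
    have h9 : 2 * η / k * γ0 ≤ ε / 4 := by nlinarith
    rw [h7, hγ]
    linarith
  set C1 : ℝ := (k : ℝ) * Real.log 3 + 1 + k / (η / 2) with hC1
  obtain ⟨N1, hN1⟩ := ev_rpow (η := η / k) (by positivity) (3 * k + 2)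
  obtain ⟨N2, hN2⟩ := ev_rpow (η := η / 2) (by positivity) C1
  obtain ⟨N3, hN3⟩ := ev_rpow (η := β * δ0 / 2) (by positivity) ((2 : ℝ) ^ (δ0 + 1))
  obtain ⟨N4, hN4⟩ := ev_rpow (η := ε / 4) (by linarith) 2
  obtain ⟨N5, hN5⟩ := ev_rpow (η := β) hβ0 (2 * n0 + 2)
  obtain ⟨N6, hN6⟩ := ev_rpow (η := δ / 2) (by positivity) 3
  refine ⟨δ, hδpos, max (max (max N1 N2) (max (max N3 N4) (max N5 1))) N6, fun N hN' => ?_⟩
  have e6 := hN6 N ((le_max_right _ _).trans hN')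
  have hN := (le_max_left _ _).trans hN'
  have e1 := hN1 N ((le_max_left _ _).trans ((le_max_left _ _).trans hN))
  have e2 := hN2 N ((le_max_right _ _).trans ((le_max_left _ _).trans hN))
  have e3 := hN3 N ((le_max_left _ _).trans ((le_max_left _ _).trans ((le_max_right _ _).trans hN)))
  have e4 := hN4 N ((le_max_right _ _).trans ((le_max_left _ _).trans ((le_max_right _ _).trans hN)))
  have e5 := hN5 N ((le_max_left _ _).trans ((le_max_right _ _).trans ((le_max_right _ _).trans hN)))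
  have hN1' : 1 ≤ N := (le_max_right _ _).trans ((le_max_right _ _).trans
    ((le_max_right _ _).trans hN))
  have hNR : (1 : ℝ) ≤ N := by exact_mod_cast hN1'
  have hN0 : (0 : ℝ) < N := by linarith
  set m : ℕ := ⌈(N : ℝ) ^ α⌉₊ with hm
  set n : ℕ := ⌊(N : ℝ) ^ β⌋₊ with hn
  have hm1 : (N : ℝ) ^ α ≤ m := Nat.le_ceil _
  have hm2 : (m : ℝ) ≤ (N : ℝ) ^ α + 1 := (Nat.ceil_lt_add_one (by positivity)).le
  have hn1 : (n : ℝ) ≤ (N : ℝ) ^ β := Nat.floor_le (by positivity)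
  have hn2 : (N : ℝ) ^ β < n + 1 := Nat.lt_floor_add_one _
  have hβbig : (2 : ℝ) ≤ (N : ℝ) ^ β := by
    have : (0 : ℝ) ≤ n0 := Nat.cast_nonneg _
    linarith
  have hn3 : (N : ℝ) ^ β / 2 ≤ n := by linarith
  have hmpos : 0 < m := by
    have : (0 : ℝ) < m := lt_of_lt_of_le (by positivity) hm1
    exact_mod_cast this
  have hmono : ∀ {x y : ℝ}, x ≤ y → (N : ℝ) ^ x ≤ (N : ℝ) ^ y := fun h =>
    Real.rpow_le_rpow_of_exponent_le hNR h
  refine ⟨n, m, hmpos, ?_, ?_, ?_, ?_, ?_, ?_⟩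
  · have h1 : (n0 : ℝ) ≤ n := by linarith
    exact_mod_cast h1
  · have h1 : ((((n + k) * m + k : ℕ)) : ℝ) ≤ N := by
      push_cast
      have h2 : ((n : ℝ) + k) * m + k ≤ ((N : ℝ) ^ β + k) * ((N : ℝ) ^ α + 1) + k := by
        gcongr
      have h3 : ((N : ℝ) ^ β + k) * ((N : ℝ) ^ α + 1) + k =
          (N : ℝ) ^ β * (N : ℝ) ^ α + (N : ℝ) ^ β + k * (N : ℝ) ^ α + 2 * k := by ring
      have h4 : (N : ℝ) ^ β * (N : ℝ) ^ α = (N : ℝ) ^ (1 - η / k) := by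
        rw [← Real.rpow_add hN0, add_comm, hαβ]
      have h5 := hmono hα1
      have h6 := hmono hβ2
      have h7 : (1 : ℝ) ≤ (N : ℝ) ^ (1 - η / k) := Real.one_le_rpow hNR (by
        have : η / k ≤ 1 := by linarith
        linarith)
      have h8 : (N : ℝ) = (N : ℝ) ^ (1 - η / k) * (N : ℝ) ^ (η / k) := by
        rw [← Real.rpow_add hN0, sub_add_cancel, Real.rpow_one]
      have h9 : (N : ℝ) ^ (1 - η / k) * (3 * k + 2) ≤ N := by
        calc (N : ℝ) ^ (1 - η / k) * (3 * k + 2) ≤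
            (N : ℝ) ^ (1 - η / k) * (N : ℝ) ^ (η / k) := by gcongr
          _ = N := h8.symm
      have h10 : (k : ℝ) * (N : ℝ) ^ α ≤ k * (N : ℝ) ^ (1 - η / k) :=
        mul_le_mul_of_nonneg_left h5 hk0.le
      have h11 : (2 : ℝ) * k ≤ 2 * k * (N : ℝ) ^ (1 - η / k) :=
        le_mul_of_one_le_right (by positivity) h7
      rw [h3, h4] at h2
      linarith
    exact_mod_cast h1
  · intro D hD hDθ
    have h1 : (N : ℝ) ^ (θ + η) ≤ ((m ^ k : ℕ) : ℝ) := by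
      push_cast
      calc (N : ℝ) ^ (θ + η) = ((N : ℝ) ^ α) ^ k := by
            rw [← Real.rpow_natCast, ← Real.rpow_mul hN0.le, hα]
            congr 1
            field_simp
        _ ≤ (m : ℝ) ^ k := by gcongr
    have hlogN : Real.log N ≤ (N : ℝ) ^ (η / 2) / (η / 2) :=
      Real.log_le_rpow_div hN0.le (by positivity)
    have hL0 : 0 ≤ Real.log N := Real.log_nonneg hNR
    have hn4 : (n : ℝ) ≤ N := hn1.trans (by
      calc (N : ℝ) ^ β ≤ (N : ℝ) ^ (1 : ℝ) := hmono hβ1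
        _ = N := Real.rpow_one _)
    have h2 : Real.log (((2 * n + 1) ^ k : ℕ) : ℝ) ≤ k * Real.log 3 + k * Real.log N := by
      push_cast
      rw [Real.log_pow, ← mul_add, ← Real.log_mul (by norm_num) hN0.ne']
      apply mul_le_mul_of_nonneg_left _ hk0.le
      apply Real.log_le_log (by positivity)
      linarith
    have h4 : (1 : ℝ) ≤ (N : ℝ) ^ (η / 2) := Real.one_le_rpow hNR (by linarith)
    have hlog3 : 0 ≤ Real.log 3 := Real.log_nonneg (by norm_num)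
    have h5 : Real.log (((2 * n + 1) ^ k : ℕ) : ℝ) + (N : ℝ) ^ δ ≤ (N : ℝ) ^ η := by
      have h6 : k * Real.log N ≤ k / (η / 2) * (N : ℝ) ^ (η / 2) := by
        calc k * Real.log N ≤ k * ((N : ℝ) ^ (η / 2) / (η / 2)) := by gcongr
          _ = k / (η / 2) * (N : ℝ) ^ (η / 2) := by ring
      have h7 : k * Real.log 3 ≤ k * Real.log 3 * (N : ℝ) ^ (η / 2) :=
        le_mul_of_one_le_right (by positivity) h4
      have h8 : (N : ℝ) ^ δ ≤ (N : ℝ) ^ (η / 2) := hmono hδ2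
      calc Real.log (((2 * n + 1) ^ k : ℕ) : ℝ) + (N : ℝ) ^ δ ≤
          k * Real.log 3 + k * Real.log N + (N : ℝ) ^ (η / 2) := by linarith
        _ ≤ C1 * (N : ℝ) ^ (η / 2) := by
            rw [hC1]
            linarith
        _ ≤ (N : ℝ) ^ (η / 2) * (N : ℝ) ^ (η / 2) := by gcongr
        _ = (N : ℝ) ^ η := by
            rw [← Real.rpow_add hN0]
            congr 1
            ring
    calc (D : ℝ) * (Real.log (((2 * n + 1) ^ k : ℕ) : ℝ) + (N : ℝ) ^ δ) ≤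
        (N : ℝ) ^ θ * (N : ℝ) ^ η := by
          have hh : 0 ≤ Real.log (((2 * n + 1) ^ k : ℕ) : ℝ) + (N : ℝ) ^ δ := by
            have : 0 ≤ Real.log (((2 * n + 1) ^ k : ℕ) : ℝ) := Real.log_natCast_nonneg _
            positivity
          exact mul_le_mul hDθ h5 hh (by positivity)
      _ = (N : ℝ) ^ (θ + η) := (Real.rpow_add hN0 _ _).symm
      _ ≤ _ := h1
  · have hlogN : Real.log N ≤ (N : ℝ) ^ (δ / 2) / (δ / 2) :=
      Real.log_le_rpow_div hN0.le (by positivity)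
    have h1 : (N : ℝ) ^ (-δ) / 2 = Real.exp (-(δ * Real.log N + Real.log 2)) := by
      rw [neg_add, Real.exp_add, Real.exp_neg (Real.log 2), Real.exp_log (by norm_num),
        Real.rpow_def_of_pos hN0, div_eq_mul_inv]
      congr 2
      ring
    rw [h1]
    apply Real.exp_le_exp.mpr
    have h2 : δ * Real.log N ≤ 2 * (N : ℝ) ^ (δ / 2) := by
      calc δ * Real.log N ≤ δ * ((N : ℝ) ^ (δ / 2) / (δ / 2)) := by gcongr
        _ = 2 * (N : ℝ) ^ (δ / 2) := by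
            field_simp
    have h3 : (N : ℝ) ^ δ = (N : ℝ) ^ (δ / 2) * (N : ℝ) ^ (δ / 2) := by
      rw [← Real.rpow_add hN0]
      congr 1
      ring
    have h4 : Real.log 2 ≤ 1 := by
      have := Real.log_two_lt_d9
      linarith
    nlinarith
  · have h1 : (n : ℝ) ^ (-δ0) ≤ ((N : ℝ) ^ β / 2) ^ (-δ0) :=
      Real.rpow_le_rpow_of_nonpos (by positivity) hn3 (by linarith)
    have h2 : ((N : ℝ) ^ β / 2) ^ (-δ0) = (N : ℝ) ^ (-(β * δ0)) * 2 ^ δ0 := by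
      rw [Real.div_rpow (by positivity) (by norm_num), ← Real.rpow_mul hN0.le,
        Real.rpow_neg (by norm_num : (0 : ℝ) ≤ 2), div_inv_eq_mul]
      congr 2
      ring
    have h3 : (N : ℝ) ^ (-(β * δ0)) * 2 ^ δ0 * 2 = (N : ℝ) ^ (-(β * δ0)) * 2 ^ (δ0 + 1) := by
      rw [Real.rpow_add (by norm_num : (0 : ℝ) < 2), Real.rpow_one]
      ring
    have h4 : (N : ℝ) ^ (-(β * δ0)) * 2 ^ (δ0 + 1) ≤
        (N : ℝ) ^ (-(β * δ0)) * (N : ℝ) ^ (β * δ0 / 2) := by gcongr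
    have h5 : (N : ℝ) ^ (-(β * δ0)) * (N : ℝ) ^ (β * δ0 / 2) ≤ (N : ℝ) ^ (-δ) := by
      rw [← Real.rpow_add hN0]
      apply hmono
      linarith
    rw [le_div_iff₀ (by norm_num : (0 : ℝ) < 2)]
    calc (n : ℝ) ^ (-δ0) * 2 ≤ (N : ℝ) ^ (-(β * δ0)) * 2 ^ δ0 * 2 := by
          rw [← h2]
          gcongr
      _ ≤ (N : ℝ) ^ (-δ) := by
          rw [h3]
          exact h4.trans h5
  · have h1 : ((N : ℝ) ^ β / 2) ^ γ0 ≤ (n : ℝ) ^ γ0 :=
      Real.rpow_le_rpow (by positivity) hn3 hγ0pos.le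
    have h2 : (N : ℝ) ^ (β * γ0) / 2 ≤ ((N : ℝ) ^ β / 2) ^ γ0 := by
      rw [Real.div_rpow (by positivity) (by norm_num), ← Real.rpow_mul hN0.le]
      apply div_le_div_of_nonneg_left (by positivity) (by positivity)
      calc (2 : ℝ) ^ γ0 ≤ 2 ^ (1 : ℝ) :=
            Real.rpow_le_rpow_of_exponent_le (by norm_num) hγ0le
        _ = 2 := Real.rpow_one _
    have h3 : (N : ℝ) ^ γ * 2 ≤ (N : ℝ) ^ (β * γ0) := by
      calc (N : ℝ) ^ γ * 2 ≤ (N : ℝ) ^ γ * (N : ℝ) ^ (ε / 4) := by gcongr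
        _ = (N : ℝ) ^ (γ + ε / 4) := (Real.rpow_add hN0 _ _).symm
        _ ≤ (N : ℝ) ^ (β * γ0) := hmono (by linarith)
    linarith

/-- the lower bounds -/
theorem sat_fault (k : ℕ) (hk : 3 ≤ k) (θ ε : ℝ) (hθ0 : 0 ≤ θ) (hθ : θ < k) (hε : 0 < ε) :
    ∃ δ : ℝ, 0 < δ ∧ ∃ N0 : ℕ, ∀ N : ℕ, N0 ≤ N → ∀ D : ℕ, 0 < D → (D : ℝ) ≤ (N : ℝ) ^ θ →
      (∀ (R : Type) [Fintype R] [Nonempty R] (C : R → RC (Cl N k × Bool)) (b : ℝ),
        (∀ ρ, (C ρ).T = ∅) →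
        (∀ x, ¬ St x → (b + (N : ℝ) ^ (-δ)) * (Fintype.card R * (D : ℝ) ^ Fintype.card (Cl N k)) ≤
          ({z : R × (Cl N k → Fin D) | (C z.1).acc (lit x (Flt z.2))}.ncard : ℝ)) →
        (∀ x, St x → ({ρ : R | (C ρ).acc (lit x ∅)}.ncard : ℝ) ≤ b * Fintype.card R) →
        ∃ ρ, Real.exp ((N : ℝ) ^ ((k - θ) / (k + 1) - ε)) ≤ ((C ρ).size : ℝ)) ∧
      ∃ B : Set (Cl N k → Fin D),
        (B.ncard : ℝ) ≤ Real.exp (-(N : ℝ) ^ δ) * (D : ℝ) ^ Fintype.card (Cl N k) ∧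
        ∀ f ∉ B, ∀ (R : Type) [Fintype R] [Nonempty R] (C : R → RC (Cl N k × Bool)) (b : ℝ),
        (∀ ρ, ((C ρ).free : ℝ) ≤ (N : ℝ) ^ δ) →
        (∀ x, ¬ St x → (b + (N : ℝ) ^ (-δ)) * Fintype.card R ≤
          ({ρ : R | (C ρ).acc (lit x (Flt f))}.ncard : ℝ)) →
        (∀ x, St x → ({ρ : R | (C ρ).acc (lit x (Flt f))}.ncard : ℝ) ≤ b * Fintype.card R) →
        ∃ ρ, Real.exp ((N : ℝ) ^ ((k - θ) / (k + 1) - ε)) ≤ ((C ρ).size : ℝ) := by
  wlog hε1 : ε ≤ 1 with Hw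
  · push Not at hε1
    obtain ⟨δ, hδ, N0, H⟩ := Hw k hk θ 1 hθ0 hθ one_pos le_rfl
    refine ⟨δ, hδ, max N0 1, fun N hN D hD hDθ => ?_⟩
    have h0 : Real.exp ((N : ℝ) ^ ((k - θ) / (k + 1) - ε)) ≤
        Real.exp ((N : ℝ) ^ ((k - θ) / (k + 1) - 1)) := by
      apply Real.exp_le_exp.mpr
      apply Real.rpow_le_rpow_of_exponent_le
      · exact_mod_cast (le_max_right _ _).trans hN
      · linarith
    obtain ⟨H1, B, hB, H2⟩ := H N ((le_max_left _ _).trans hN) D hD hDθ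
    refine ⟨fun R _ _ C b hT h1 h2 => ?_, B, hB, fun f hf R _ _ C b hT h1 h2 => ?_⟩
    · obtain ⟨ρ, hρ⟩ := H1 R C b hT h1 h2
      exact ⟨ρ, h0.trans hρ⟩
    · obtain ⟨ρ, hρ⟩ := H2 f hf R C b hT h1 h2
      exact ⟨ρ, h0.trans hρ⟩
  obtain ⟨δ0, hδ0, n0, H⟩ := sat_rand k hk (ε / 4) (by linarith)
  obtain ⟨δ, hδ, N0, HP⟩ := params k hk θ ε δ0 hθ0 hθ hε hε1 hδ0 (max n0 1)
  refine ⟨δ, hδ, max N0 1, fun N hN D hD hDθ => ?_⟩
  have hN1 : 1 ≤ N := (le_max_right _ _).trans hN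
  have hN0 : (0 : ℝ) < N := by exact_mod_cast hN1
  obtain ⟨n, m, hm, hn, hcard, hbad, hexp1, hadv, hexp⟩ := HP N ((le_max_left _ _).trans hN)
  have _ : NeZero m := ⟨hm.ne'⟩
  have hn1 : 1 ≤ n := (le_max_right _ _).trans hn
  have hle : Fintype.card (Vr n k m) ≤ Fintype.card (Fin N) := by
    rw [Fintype.card_sum, Fintype.card_prod, Fintype.card_sum, ZMod.card, Fintype.card_fin,
      Fintype.card_fin, Fintype.card_fin]
    exact hcard
  obtain ⟨ι⟩ := Function.Embedding.nonempty_of_card_le hle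
  set g : ℝ := (N : ℝ) ^ (-δ) with hg
  have hg0 : 0 < g := by positivity
  have hX : (Fintype.card (Cla n k) : ℝ) ≤ (((2 * n + 1) ^ k : ℕ) : ℝ) := by
    exact_mod_cast card_cla n k
  have hDR : (1 : ℝ) ≤ D := by exact_mod_cast hD
  have hb : (Fintype.card (Cla n k) : ℝ) * (1 - 1 / (D : ℝ)) ^ (m ^ k) ≤
      Real.exp (-(N : ℝ) ^ δ) := by
    refine le_trans (mul_le_mul_of_nonneg_right hX ?_) (places_bad hD (by positivity)
      (hbad D hD hDθ))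
    apply pow_nonneg
    rw [sub_nonneg, div_le_one (by linarith)]
    exact hDR
  refine ⟨fun R _ _ C b hT h1 h2 => ?_, Bad (slot ι) D, ?_, fun f hf R _ _ C b hT h1 h2 => ?_⟩
  · obtain ⟨C', hs, hfree, hy, hno⟩ := small (by omega) ι hD C hT b g (hb.trans hexp1) h1 h2
    have hne : Nonempty (R × (Cla n k → (Fin k → ZMod m))) :=
      ⟨(Classical.arbitrary R, fun _ => 0)⟩
    obtain ⟨ω, hω⟩ := H n ((le_max_left _ _).trans hn) _ C' b
      (fun y hyy => le_trans (mul_le_mul_of_nonneg_right (by linarith) (Nat.cast_nonneg _))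
        (hy y hyy)) hno
      (fun ω => by
        rw [hfree ω, Nat.cast_one]
        exact Real.one_le_rpow (by exact_mod_cast hn1) hδ0.le)
    refine ⟨ω.1, ?_⟩
    rw [← hs ω]
    exact le_trans (Real.exp_le_exp.mpr hexp) hω
  · refine (ncard_bad (slot ι) hD).trans ?_
    apply mul_le_mul_of_nonneg_right _ (by positivity)
    refine le_trans (le_of_eq ?_) hb
    rw [Fintype.card_fun, ZMod.card, Fintype.card_fin]
  · obtain ⟨C', hs, hfree, hy, hno⟩ := small_known (by omega) ι f hf C b g h1 h2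
    have hnR : (0 : ℝ) < n := by exact_mod_cast hn1
    have hf2 : (N : ℝ) ^ δ ≤ (n : ℝ) ^ δ0 := by
      have h3 : (n : ℝ) ^ (-δ0) ≤ (N : ℝ) ^ (-δ) := hadv.trans (by linarith)
      rw [Real.rpow_neg hnR.le, Real.rpow_neg hN0.le] at h3
      exact (inv_le_inv₀ (by positivity) (by positivity)).mp h3
    obtain ⟨ρ, hρ⟩ := H n ((le_max_left _ _).trans hn) _ C' b
      (fun y hyy => le_trans (mul_le_mul_of_nonneg_right (by linarith) (Nat.cast_nonneg _))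
        (hy y hyy)) hno
      (fun ρ => by
        rw [hfree ρ]
        exact (hT ρ).trans hf2)
    refine ⟨ρ, ?_⟩
    rw [← hs ρ]
    exact le_trans (Real.exp_le_exp.mpr hexp) hρ

end Pool.Agent.Z45.SF
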