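import Pool.Agent.Z45.SF.Host

/-! From circuits for formulas with faults to monotone circuits for small formulas. -/

set_option autoImplicit false

namespace Pool.Agent.Z45.SF

open Finset Pool.Agent.W969.MC Pool.Agent.Y630.TF Pool.Agent.Y630.NW Pool.Agent.Y630.TR

theorem small {n k m N : ℕ} (hk : 2 ≤ k) [NeZero m] (ι : Vr n k m ↪ Fin N) {D : ℕ} (hD : 0 < D)
    {R : Type} [Fintype R] [Nonempty R] (C : R → RC (Cl N k × Bool)) (hT : ∀ ρ, (C ρ).T = ∅)
    (b g : ℝ)
    (hbad : (Fintype.card (Cla n k) : ℝ) * (1 - 1 / (D : ℝ)) ^ (m ^ k) ≤ g / 2)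
    (h1 : ∀ x, ¬ St x → (b + g) * (Fintype.card R * (D : ℝ) ^ Fintype.card (Cl N k)) ≤
      ({z : R × (Cl N k → Fin D) | (C z.1).acc (lit x (Flt z.2))}.ncard : ℝ))
    (h2 : ∀ x, St x → ({ρ : R | (C ρ).acc (lit x ∅)}.ncard : ℝ) ≤ b * Fintype.card R) :
    ∃ C' : R × (Cla n k → (Fin k → ZMod m)) → RC (Cla n k),
      (∀ ω, (C' ω).size = (C ω.1).size) ∧ (∀ ω, (C' ω).free = 1) ∧
      (∀ y, ¬ SatF n k y → (b + g / 2) * Fintype.card (R × (Cla n k → (Fin k → ZMod m))) ≤
        ({ω | (C' ω).acc y}.ncard : ℝ)) ∧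
      (∀ y, SatF n k y → ({ω | (C' ω).acc y}.ncard : ℝ) ≤
        b * Fintype.card (R × (Cla n k → (Fin k → ZMod m)))) := by
  classical
  have hx : (∅ : Finset (Fin n × Bool)).card ≤ k := by simp
  have x0 : Cla n k := ⟨∅, hx⟩
  have hex : ∀ ω : R × (Cla n k → (Fin k → ZMod m)), ∃ C' : RC (Cla n k),
      C'.size = (C ω.1).size ∧ C'.T = ∅ ∧
        ∀ y, C'.acc y ↔ (C ω.1).acc (rlit (slot ι) (bse ι) ω.2 y) := by
    intro ω
    obtain ⟨σ, c, hσ⟩ := rlit_lsb (slot ι) (bse ι) ω.2
    obtain ⟨C', hsize, -, hT', hacc⟩ := subst (C ω.1) x0 σ c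
    refine ⟨C', hsize, hT'.mpr (hT ω.1), fun y => ?_⟩
    rw [hacc, hσ]
    rfl
  choose C' hs hT' hacc using hex
  refine ⟨C', hs, fun ω => ?_, fun y hy => ?_, fun y hy => ?_⟩
  · unfold RC.free
    rw [hT' ω]
    simp
  · have hG : Fintype.card (Fin k → ZMod m) = m ^ k := by
      rw [Fintype.card_fun, ZMod.card, Fintype.card_fin]
    have h3 := transfer_yes (slot ι) (bse ι) hD (fun ρ y => (C ρ).acc y)
      (fun ρ u v huv hu => acc_mono _ (hT ρ) huv hu) b g (by rw [hG]; exact hbad) y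
      (fun τ => h1 _ (fun hh => hy ((host_sat hk ι τ y).mp hh)))
    refine h3.trans (le_of_eq ?_)
    congr 2
    ext ω
    exact (hacc ω y).symm
  · have h3 := transfer_no (slot ι) (bse ι) (fun ρ y => (C ρ).acc y)
      (fun ρ u v huv hu => acc_mono _ (hT ρ) huv hu) b y
      (fun τ => h2 _ ((host_sat hk ι τ y).mpr hy))
    refine le_trans (le_of_eq ?_) h3
    congr 2
    ext ω
    exact hacc ω y

/-- there are few short clauses -/
lemma card_cla (n k : ℕ) : Fintype.card (Cla n k) ≤ (2 * n + 1) ^ k := by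
  classical
  have h1 : Function.Injective (fun (c : Cla n k) (j : Fin k) => c.1.toList[(j : ℕ)]?) := by
    intro c c' h
    have h2 : c.1.toList = c'.1.toList := by
      apply List.ext_getElem?
      intro i
      by_cases hi : i < k
      · exact congrFun h ⟨i, hi⟩
      · rw [List.getElem?_eq_none, List.getElem?_eq_none]
        · rw [Finset.length_toList]
          have := c'.2
          omega
        · rw [Finset.length_toList]
          have := c.2
          omega
    apply Subtype.ext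
    ext p
    rw [← Finset.mem_toList, h2, Finset.mem_toList]
  have h2 := Fintype.card_le_of_injective _ h1
  rw [Fintype.card_fun, Fintype.card_option, Fintype.card_prod, Fintype.card_fin,
    Fintype.card_bool, Fintype.card_fin] at h2
  rwa [mul_comm n 2] at h2

/-- the number of places -/
lemma places_bad {D K : ℕ} (hD : 0 < D) {n t : ℝ} (hn : 0 < n)
    (hK : D * (Real.log n + t) ≤ K) : n * (1 - 1 / (D : ℝ)) ^ K ≤ Real.exp (-t) := by
  have hDR : (0 : ℝ) < D := by exact_mod_cast hD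
  have h0 : (0 : ℝ) ≤ 1 - 1 / (D : ℝ) := by
    rw [sub_nonneg, div_le_one hDR]
    exact_mod_cast hD
  have h1 : (1 - 1 / (D : ℝ)) ≤ Real.exp (-(1 / D)) := by
    have := Real.add_one_le_exp (-(1 / (D : ℝ)))
    linarith
  have h2 : (1 - 1 / (D : ℝ)) ^ K ≤ Real.exp (-(K / D)) := by
    calc (1 - 1 / (D : ℝ)) ^ K ≤ Real.exp (-(1 / D)) ^ K := pow_le_pow_left₀ h0 h1 K
      _ = Real.exp (-(K / D)) := by
          rw [← Real.exp_nat_mul]
          congr 1
          ring
  have h3 : Real.log n + t ≤ K / D := by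
    rw [le_div_iff₀ hDR]
    linarith
  have h4 : Real.exp (-(K / D)) ≤ Real.exp (-(Real.log n + t)) := by
    apply Real.exp_le_exp.mpr
    linarith
  have h5 : n * Real.exp (-(Real.log n + t)) = Real.exp (-t) := by
    rw [neg_add, Real.exp_add, Real.exp_neg (Real.log n), Real.exp_log hn, ← mul_assoc,
      mul_inv_cancel₀ hn.ne', one_mul]
  calc n * (1 - 1 / (D : ℝ)) ^ K ≤ n * Real.exp (-(Real.log n + t)) :=
        mul_le_mul_of_nonneg_left (h2.trans h4) hn.le
    _ = Real.exp (-t) := h5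

/-- if every small clause has a place without negation then the circuits are monotone circuits for
small formulas -/
theorem small_known {n k m N : ℕ} (hk : 2 ≤ k) [NeZero m] (ι : Vr n k m ↪ Fin N) {D : ℕ}
    (f : Cl N k → Fin D) (hf : f ∉ Bad (slot ι) D)
    {R : Type} [Fintype R] (C : R → RC (Cl N k × Bool)) (b g : ℝ)
    (h1 : ∀ x, ¬ St x → (b + g) * Fintype.card R ≤
      ({ρ : R | (C ρ).acc (lit x (Flt f))}.ncard : ℝ))
    (h2 : ∀ x, St x → ({ρ : R | (C ρ).acc (lit x (Flt f))}.ncard : ℝ) ≤ b * Fintype.card R) :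
    ∃ C' : R → RC (Cla n k), (∀ ρ, (C' ρ).size = (C ρ).size) ∧
      (∀ ρ, (C' ρ).free = (C ρ).free) ∧
      (∀ y, ¬ SatF n k y → (b + g) * Fintype.card R ≤ ({ρ | (C' ρ).acc y}.ncard : ℝ)) ∧
      (∀ y, SatF n k y → ({ρ | (C' ρ).acc y}.ncard : ℝ) ≤ b * Fintype.card R) := by
  classical
  have x0 : Cla n k := ⟨∅, by simp⟩
  have hf' : ∀ x, ∃ g, (f (slot ι (x, g)) : ℕ) = 0 := by
    intro x
    by_contra hcon
    push Not at hcon
    exact hf ⟨x, hcon⟩
  choose τ hτ using hf'
  obtain ⟨σ, c, hσ⟩ := rlit_lsb (slot ι) (bse ι) τ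
  set σ' : Cl N k × Bool → Option (Cla n k) := fun eb => if eb.2 = true then σ eb else none with hσ'
  set c' : Cl N k × Bool → Bool := fun eb => if eb.2 = true then c eb else
    !(bse ι eb.1) && !decide (eb.1 ∈ Flt f) with hc'
  have key : ∀ y, lit (host (slot ι) (bse ι) τ y) (Flt f) = lsub σ' c' y := by
    intro y
    funext ⟨e, b⟩
    rcases b with _ | _
    · have h3 : lsub σ' c' y (e, false) = (!(bse ι e) && !decide (e ∈ Flt f)) := by
        unfold lsub
        simp [hσ', hc']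
      rw [h3]
      have h4 : lit (host (slot ι) (bse ι) τ y) (Flt f) (e, false) =
          (!host (slot ι) (bse ι) τ y e && !decide (e ∈ Flt f)) := if_neg (by simp)
      rw [h4]
      by_cases he : e ∈ Flt f
      · simp [he]
      · have h5 : host (slot ι) (bse ι) τ y e = bse ι e := by
          rw [Bool.eq_iff_iff, host_true]
          constructor
          · rintro (h | ⟨x, -, rfl⟩)
            · exact h
            · exact absurd (hτ x) he
          · exact Or.inl
        rw [h5]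
    · have h3 : lsub σ' c' y (e, true) = rlit (slot ι) (bse ι) τ y (e, true) := by
        rw [hσ]
        unfold lsub lsb
        simp [hσ', hc']
      rw [h3]
      unfold lit rlit
      simp
  have hex : ∀ ρ : R, ∃ C' : RC (Cla n k), C'.size = (C ρ).size ∧ C'.free = (C ρ).free ∧
      ∀ y, C'.acc y ↔ (C ρ).acc (lit (host (slot ι) (bse ι) τ y) (Flt f)) := by
    intro ρ
    obtain ⟨C', hsize, hfree, -, hacc⟩ := subst (C ρ) x0 σ' c'
    exact ⟨C', hsize, hfree, fun y => by rw [hacc, key]⟩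
  choose C' hs hfree hacc using hex
  refine ⟨C', hs, hfree, fun y hy => ?_, fun y hy => ?_⟩
  · refine (h1 _ (fun hh => hy ((host_sat hk ι τ y).mp hh))).trans (le_of_eq ?_)
    congr 2
    ext ρ
    exact (hacc ρ y).symm
  · refine le_trans (le_of_eq ?_) (h2 _ ((host_sat hk ι τ y).mpr hy))
    congr 2
    ext ρ
    exact hacc ρ y

end Pool.Agent.Z45.SF
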